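import Pool.Agent.Work.MP_75c89d_seeds.Dens

/-!
# MP_75c89d_nt, Q1: the sequences of the first kind for almost all seeds

Let `g ∈ GEM(a, m)`. For a seed `c` the polynomial `g(cX)` belongs to `GEM(a, m)`; for `m = 1` and
`g = X + 1` the terms of `GEM_1(g(cX); a, m)` are: `p_{k+1}` is the smallest prime factor of
`c p_1 ⋯ p_k + 1`. We show that for 100 per cent of the seeds `c` all primes up to `y` (and even up
to `y(c)`, where `y(c)` tends to infinity) occur, except for those which cannot occur for an obvious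
reason.
-/

set_option autoImplicit false

open Polynomial Filter

namespace Pool.Agent.Results.MP_75c89d_nt.AlmostAllSeeds

open Pool.Agent.Work.MP_75c89d_seeds

/-- `f ∈ GEM(a, m)`: `f(1) ≠ 0`, and for every positive integer `n` which is coprime to `f(0)` and
congruent to some `a ^ k`, `k ≥ 1`, modulo `m`, the value `f(n)` is divisible by a prime `p ≡ a`
modulo `m` which does not divide `f(0)`. -/
def IsGEM (a m : ℕ) (f : ℤ[X]) : Prop :=
  f.eval 1 ≠ 0 ∧ ∀ n : ℕ, 0 < n → IsCoprime (n : ℤ) (f.eval 0) →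
    (∃ k : ℕ, 0 < k ∧ n ≡ a ^ k [MOD m]) →
    ∃ p : ℕ, p.Prime ∧ (p : ℤ) ∣ f.eval (n : ℤ) ∧ p ≡ a [MOD m] ∧ ¬ (p : ℤ) ∣ f.eval 0

/-- `p 0, p 1, ...` is the sequence `GEM_1(f; a, m)`: `p n` is the smallest prime `q ≡ a` modulo `m`
which divides `f(p 0 ⋯ p (n - 1))` and does not divide `f(0)`. -/
def IsGEM1 (f : ℤ[X]) (a m : ℕ) (p : ℕ → ℕ) : Prop :=
  ∀ n : ℕ, IsLeast {q : ℕ | q.Prime ∧ (q : ℤ) ∣ f.eval (∏ i ∈ Finset.range n, (p i : ℤ)) ∧
    q ≡ a [MOD m] ∧ ¬ (q : ℤ) ∣ f.eval 0} (p n)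

/-- `c` is a seed for `g`: it is positive, coprime to `g(0)` and congruent to a power of `a`
modulo `m`. -/
def IsSeed (a m : ℕ) (g : ℤ[X]) (c : ℕ) : Prop :=
  0 < c ∧ IsCoprime (c : ℤ) (g.eval 0) ∧ ∃ k : ℕ, c ≡ a ^ k [MOD m]

/-- `g(cX)` is in `GEM(a, m)`, and every prime `q ≤ y`, `q ≡ a` modulo `m`, which does not divide
`c g(0)` and divides a value of `g`, is one of the first `K` terms of `GEM_1(g(cX); a, m)`. -/
def Contains (a m : ℕ) (g : ℤ[X]) (c y K : ℕ) : Prop :=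
  IsGEM a m (g.comp (C (c : ℤ) * X)) ∧ ∃ p : ℕ → ℕ, IsGEM1 (g.comp (C (c : ℤ) * X)) a m p ∧
    ∀ q : ℕ, q ≤ y → q.Prime → q ≡ a [MOD m] → ¬ (q : ℤ) ∣ c * g.eval 0 →
      (∃ n : ℤ, (q : ℤ) ∣ g.eval n) → ∃ k : ℕ, k < K ∧ p k = q

/-- The set `S` of positive integers has natural density zero. -/
def DensityZero (S : Set ℕ) : Prop :=
  ∀ ε : ℝ, 0 < ε → ∃ X₀ : ℕ, ∀ X : ℕ, X₀ ≤ X → ((S ∩ Set.Iic X).ncard : ℝ) ≤ ε * X

private theorem eval_comp_aux (g : ℤ[X]) (c : ℕ) (x : ℤ) :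
    (g.comp (C (c : ℤ) * X)).eval x = g.eval ((c : ℤ) * x) := by
  simp [eval_comp]

private theorem eval_zero_ne {a m : ℕ} (ham : a ^ 2 ≡ 1 [MOD m]) {g : ℤ[X]} (hg : IsGEM a m g) :
    g.eval 0 ≠ 0 := by
  intro h0
  obtain ⟨p, -, -, -, h⟩ := hg.2 1 Nat.one_pos (by rw [Nat.cast_one]; exact isCoprime_one_left)
    ⟨2, by norm_num, ham.symm⟩
  rw [h0] at h
  exact h (dvd_zero _)

private theorem gem_seed {a m : ℕ} {g : ℤ[X]} (hg : IsGEM a m g) {c : ℕ} (hc : IsSeed a m g c)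
    (h0 : g.eval (c : ℤ) ≠ 0) : IsGEM a m (g.comp (C (c : ℤ) * X)) := by
  refine ⟨by rw [eval_comp_aux, mul_one]; exact h0, ?_⟩
  rintro n hn hcop ⟨k, hk, hnk⟩
  rw [eval_comp_aux, mul_zero] at hcop
  simp only [eval_comp_aux, mul_zero]
  obtain ⟨hc0, hc1, j, hcj⟩ := hc
  have h1 := hg.2 (c * n) (Nat.mul_pos hc0 hn) (by push_cast; exact hc1.mul_left hcop)
    ⟨j + k, by omega, by rw [pow_add]; exact hcj.mul hnk⟩
  push_cast at h1
  exact h1

private theorem contains_of_dvd {a m : ℕ} (ham : a ^ 2 ≡ 1 [MOD m]) {g : ℤ[X]} (hg : IsGEM a m g)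
    {c y K : ℕ} (hc : IsSeed a m g c) (h0 : g.eval (c : ℤ) ≠ 0)
    (h : ∀ p, p ≤ y → Adm a m g p → ¬ p ∣ c → (∃ r : ℤ, (p : ℤ) ∣ g.eval r) →
      p ∣ NN (Adm a m g) g c K) : Contains a m g c y K := by
  have hgood := good_adm a m g
  have hG := gem_seed hg hc h0
  -- the states are products of admissible primes
  have hstate : ∀ k, IsCoprime ((NN (Adm a m g) g c k : ℕ) : ℤ) (g.eval 0) ∧
      NN (Adm a m g) g c k ≡ a ^ k [MOD m] ∧
      ∃ q, Hit (Adm a m g) g c (NN (Adm a m g) g c k) q := by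
    have hex : ∀ k, IsCoprime ((NN (Adm a m g) g c k : ℕ) : ℤ) (g.eval 0) →
        NN (Adm a m g) g c k ≡ a ^ k [MOD m] →
        ∃ q, Hit (Adm a m g) g c (NN (Adm a m g) g c k) q := by
      intro k h1 h2
      have h3 := hG.2 (NN (Adm a m g) g c k) (NN_pos _ _) (by
        rw [eval_comp_aux, mul_zero]; exact h1) ⟨k + 2, by omega, by
        rw [pow_add]
        simpa using h2.mul ham.symm⟩
      rw [eval_comp_aux, eval_comp_aux, mul_zero] at h3
      obtain ⟨q, h4, h5, h6, h7⟩ := h3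
      exact ⟨q, ⟨h4, h6, h7⟩, h5⟩
    intro k
    induction k with
    | zero =>
      have h1 : IsCoprime ((NN (Adm a m g) g c 0 : ℕ) : ℤ) (g.eval 0) := by
        change IsCoprime ((1 : ℕ) : ℤ) _
        rw [Nat.cast_one]
        exact isCoprime_one_left
      have h2 : NN (Adm a m g) g c 0 ≡ a ^ 0 [MOD m] := by
        change 1 ≡ a ^ 0 [MOD m]
        rw [pow_zero]
      exact ⟨h1, h2, hex 0 h1 h2⟩
    | succ k ih =>
      obtain ⟨h1, h2, q, hq⟩ := ih
      obtain ⟨h3, -⟩ := nx_spec hq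
      have h4 := NN_succ_of_hit hgood hq
      have h5 : IsCoprime ((NN (Adm a m g) g c (k + 1) : ℕ) : ℤ) (g.eval 0) := by
        rw [h4]
        push_cast
        refine h1.mul_left ?_
        rw [Int.isCoprime_iff_nat_coprime, Int.natAbs_natCast]
        rw [h3.1.1.coprime_iff_not_dvd]
        intro h6
        exact h3.1.2.2 (Int.natCast_dvd.mpr h6)
      have h6 : NN (Adm a m g) g c (k + 1) ≡ a ^ (k + 1) [MOD m] := by
        rw [h4, pow_succ]
        exact h2.mul h3.1.2.1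
      exact ⟨h5, h6, hex _ h5 h6⟩
  set p : ℕ → ℕ := fun k => nx (Adm a m g) g c (NN (Adm a m g) g c k) with hp
  have hprod : ∀ k, (∏ i ∈ Finset.range k, (p i : ℤ)) = ((NN (Adm a m g) g c k : ℕ) : ℤ) := by
    intro k
    induction k with
    | zero => rfl
    | succ k ih =>
      obtain ⟨-, -, q, hq⟩ := hstate k
      rw [Finset.prod_range_succ, ih, NN_succ_of_hit hgood hq]
      push_cast
      rfl
  refine ⟨hG, p, ?_, ?_⟩
  · intro k
    rw [hprod k]
    obtain ⟨-, -, q, hq⟩ := hstate k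
    obtain ⟨h1, -⟩ := nx_spec hq
    simp only [eval_comp_aux, mul_zero]
    refine ⟨⟨h1.1.1, h1.2, h1.1.2.1, h1.1.2.2⟩, ?_⟩
    rintro s ⟨h2, h3, h4, h5⟩
    exact (nx_spec (A := Adm a m g) (g := g) (c := c) (n := NN (Adm a m g) g c k)
      ⟨⟨h2, h4, h5⟩, h3⟩).2
  · intro q hqy hq hqa hqd hqr
    have hqA : Adm a m g q := ⟨hq, hqa, fun h1 => hqd (h1.mul_left _)⟩
    have h1 := h q hqy hqA (fun h2 => hqd (by
      have h3 : (q : ℤ) ∣ (c : ℤ) := by exact_mod_cast h2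
      exact h3.mul_right _)) hqr
    have h2 : (q : ℤ) ∣ ∏ i ∈ Finset.range K, (p i : ℤ) := by
      rw [hprod K]
      exact_mod_cast h1
    rw [(Nat.prime_iff_prime_int.mp hq).dvd_finsetProd_iff] at h2
    obtain ⟨k, hk, h3⟩ := h2
    refine ⟨k, Finset.mem_range.mp hk, ?_⟩
    obtain ⟨-, -, s, hs⟩ := hstate k
    obtain ⟨h4, -⟩ := nx_spec hs
    have h5 : q ∣ p k := by exact_mod_cast h3
    exact ((Nat.prime_dvd_prime_iff_eq hq h4.1.1).mp h5).symm

/-- **Theorem.** Let `a ^ 2 ≡ 1` modulo `m`, let `g ∈ GEM(a, m)`, and suppose that all but finitely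
many primes `q ≡ a` modulo `m` divide some value `g(n)`, `n ∈ ℤ`.

(1) For every `y` and every `ε > 0` there are `M`, `K` and a set of at most `ε M` residue classes
modulo `M` such that for every seed `c` with `g(c) ≠ 0` outside of these classes, `g(cX)` is in
`GEM(a, m)`, and all primes `q ≤ y`, `q ≡ a` modulo `m`, which do not divide `c g(0)` and divide a
value of `g`, are among the first `K` terms of `GEM_1(g(cX); a, m)`.

(2) There is a function `y(c)` which tends to infinity such that for all seeds `c` outside of a set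
of natural density zero, `g(cX)` is in `GEM(a, m)`, and all primes `q ≤ y(c)`, `q ≡ a` modulo `m`,
which do not divide `c g(0)` and divide a value of `g`, occur in `GEM_1(g(cX); a, m)`. -/
theorem result (a m : ℕ) (hm : 0 < m) (ham : a ^ 2 ≡ 1 [MOD m]) (g : ℤ[X]) (hg : IsGEM a m g)
    (hroot : {q : ℕ | q.Prime ∧ q ≡ a [MOD m] ∧ ∀ n : ℤ, ¬ (q : ℤ) ∣ g.eval n}.Finite) :
    (∀ (y : ℕ) (ε : ℝ), 0 < ε → ∃ M K : ℕ, 0 < M ∧ ∃ R : Finset ℕ, (R.card : ℝ) ≤ ε * M ∧
      ∀ c : ℕ, IsSeed a m g c → g.eval (c : ℤ) ≠ 0 → c % M ∉ R → Contains a m g c y K) ∧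
    (∃ y : ℕ → ℕ, Tendsto y atTop atTop ∧
      DensityZero {c : ℕ | IsSeed a m g c ∧ ¬ ∃ K : ℕ, Contains a m g c (y c) K}) := by
  have hcop : a.Coprime m := by
    have h1 : a * a ≡ 1 [MOD m] := by rwa [← sq]
    exact Nat.coprime_of_mul_modEq_one a h1
  have hg0 := eval_zero_ne ham hg
  have key : ∀ (y : ℕ) (ε : ℝ), 0 < ε → ∃ M K : ℕ, 0 < M ∧ ∃ R : Finset ℕ,
      (R.card : ℝ) ≤ ε * M ∧ ∀ c : ℕ, IsSeed a m g c → g.eval (c : ℤ) ≠ 0 → c % M ∉ R →
        Contains a m g c y K := by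
    intro y ε hε
    obtain ⟨M, K, hM, R, hR, h⟩ := few_classes hm hcop hg0 hroot y hε
    exact ⟨M, K, hM, R, hR, fun c hc hc0 hcR => contains_of_dvd ham hg hc hc0 (h c hcR)⟩
  refine ⟨key, ?_⟩
  refine diagonal (fun n => {c : ℕ | IsSeed a m g c ∧ ¬ ∃ K : ℕ, Contains a m g c n K}) ?_ ?_
  · rintro n n' hn c ⟨hc, h1⟩
    refine ⟨hc, fun ⟨K, h2, p, h3, h4⟩ => h1 ⟨K, h2, p, h3, fun q hq => h4 q (hq.trans hn)⟩⟩
  · intro n
    have hfin : {c : ℕ | g.eval (c : ℤ) = 0}.Finite := by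
      have hgne : g ≠ 0 := by
        rintro rfl
        exact hg0 eval_zero
      have h1 : {x : ℤ | g.IsRoot x}.Finite := Polynomial.finite_setOfPred_isRoot hgne
      exact h1.preimage (Nat.cast_injective.injOn)
    refine DZ_of_classes _ {c : ℕ | g.eval (c : ℤ) = 0} hfin ?_
    intro ε hε
    obtain ⟨M, K, hM, R, hR, h⟩ := key n ε hε
    refine ⟨M, hM, R, hR, ?_⟩
    rintro c ⟨hc, h1⟩ hc0
    by_contra hcR
    exact h1 ⟨K, h c hc hc0 hcR⟩

/-- The case `m = 1`, `g = X + 1`: for a positive integer `c` let `p 0, p 1, ...` be the sequence in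
which `p k` is the smallest prime factor of `c p 0 ⋯ p (k - 1) + 1` (for `c = 1` the Euclid-Mullin
sequence). There is a function `y(c)` which tends to infinity such that for all positive integers
`c` outside of a set of natural density zero all primes `q ≤ y(c)` which do not divide `c` occur. -/
theorem mullin_case : ∃ y : ℕ → ℕ, Tendsto y atTop atTop ∧
    DensityZero {c : ℕ | 0 < c ∧ ∃ p : ℕ → ℕ,
      (∀ k, p k = (c * ∏ i ∈ Finset.range k, p i + 1).minFac) ∧
      ∃ q : ℕ, q ≤ y c ∧ q.Prime ∧ ¬ q ∣ c ∧ ∀ k, p k ≠ q} := by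
  have hG : IsGEM 1 1 (X + 1 : ℤ[X]) := by
    refine ⟨by simp, fun n hn _ _ => ?_⟩
    obtain ⟨p, hp, hpd⟩ := Nat.exists_prime_and_dvd (show n + 1 ≠ 1 by omega)
    refine ⟨p, hp, ?_, Nat.modEq_one, ?_⟩
    · simp only [eval_add, eval_X, eval_one]
      exact_mod_cast hpd
    · simp only [eval_add, eval_X, eval_one, zero_add]
      intro h1
      have h2 : p ∣ 1 := by exact_mod_cast h1
      exact hp.one_lt.ne' (Nat.dvd_one.mp h2)
  have hroot : {q : ℕ | q.Prime ∧ q ≡ 1 [MOD 1] ∧ ∀ n : ℤ, ¬ (q : ℤ) ∣ (X + 1 : ℤ[X]).eval n}.Finite := by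
    refine Set.finite_empty.subset ?_
    rintro q ⟨-, -, h⟩
    exact h (-1) (by simp)
  obtain ⟨-, y, hy, hD⟩ := result 1 1 Nat.one_pos rfl (X + 1) hG hroot
  refine ⟨y, hy, ?_⟩
  intro ε hε
  obtain ⟨B₀, hB₀⟩ := hD ε hε
  refine ⟨B₀, fun B hB => ?_⟩
  refine le_trans ?_ (hB₀ B hB)
  have hfin : ({c : ℕ | IsSeed 1 1 (X + 1 : ℤ[X]) c ∧
      ¬ ∃ K : ℕ, Contains 1 1 (X + 1 : ℤ[X]) c (y c) K} ∩ Set.Iic B).Finite :=
    (Set.finite_Iic B).inter_of_right _
  refine Nat.cast_le.mpr (Set.ncard_le_ncard ?_ hfin)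
  rintro c ⟨⟨hc, p, hp, q, hqy, hq, hqc, hqp⟩, hcX⟩
  refine ⟨⟨⟨hc, by simpa using isCoprime_one_right, 0, Nat.modEq_one⟩, ?_⟩, hcX⟩
  rintro ⟨K, -, p', hp', hcat⟩
  obtain ⟨k, -, hk⟩ := hcat q hqy hq Nat.modEq_one (by
    simp only [eval_add, eval_X, eval_one, zero_add, mul_one]
    intro h1
    exact hqc (by exact_mod_cast h1)) ⟨-1, by simp⟩
  -- the two sequences agree
  have heq : ∀ n, ∀ i < n, p' i = p i := by
    intro n
    induction n with
    | zero => intro i hi; omega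
    | succ n ih =>
      intro i hi
      rcases Nat.lt_succ_iff_lt_or_eq.mp hi with h1 | rfl
      · exact ih i h1
      · have h2 := hp' i
        have h3 : (∏ j ∈ Finset.range i, (p' j : ℤ)) = ((∏ j ∈ Finset.range i, p j : ℕ) : ℤ) := by
          push_cast
          refine Finset.prod_congr rfl fun j hj => ?_
          rw [ih j (Finset.mem_range.mp hj)]
        rw [h3] at h2
        simp only [eval_comp_aux, eval_add, eval_X, eval_one, mul_zero, zero_add] at h2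
        have hne : c * ∏ j ∈ Finset.range i, p j + 1 ≠ 1 := by
          have : 0 < ∏ j ∈ Finset.range i, p j := by
            refine Finset.prod_pos fun j _ => ?_
            rw [hp j]
            exact Nat.minFac_pos _
          have := Nat.mul_pos hc this
          omega
        refine le_antisymm ?_ ?_
        · refine h2.2 ⟨?_, ?_, Nat.modEq_one, ?_⟩
          · rw [hp i]
            exact Nat.minFac_prime hne
          · rw [hp i]
            exact_mod_cast Nat.minFac_dvd (c * ∏ j ∈ Finset.range i, p j + 1)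
          · intro h4
            have h5 : p i ∣ 1 := by exact_mod_cast h4
            rw [hp i] at h5
            exact (Nat.minFac_prime hne).one_lt.ne' (Nat.dvd_one.mp h5)
        · rw [hp i]
          refine Nat.minFac_le_of_dvd h2.1.1.two_le ?_
          exact_mod_cast h2.1.2.1
  exact hqp k ((heq (k + 1) k (Nat.lt_succ_self k)).symm.trans hk)

end Pool.Agent.Results.MP_75c89d_nt.AlmostAllSeeds
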