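import Pool.Agent.Work.MP_75c89d_q1.Main

/-!
# MP_75c89d_nt, Q1: the residue class 11 modulo 60

A parity law for the polynomials which occur in the Euclidean proofs (Schur, Murty) that there are
infinitely many primes `≡ 11` modulo `60`, and its consequence for `GEM_1(f; 11, 60)`.
-/

set_option autoImplicit false

open Polynomial

namespace Pool.Agent.Results.MP_75c89d_nt.EuclideanParity

/-- `f ∈ GEM(a, m)`: `f(1) ≠ 0`, and for every positive integer `n` which is coprime to `f(0)` and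
congruent to some `a ^ k`, `k ≥ 1`, modulo `m`, the value `f(n)` is divisible by a prime `p ≡ a`
modulo `m` which does not divide `f(0)`. -/
def IsGEM (a m : ℕ) (f : ℤ[X]) : Prop :=
  f.eval 1 ≠ 0 ∧ ∀ n : ℕ, 0 < n → IsCoprime (n : ℤ) (f.eval 0) →
    (∃ k : ℕ, 0 < k ∧ n ≡ a ^ k [MOD m]) →
    ∃ p : ℕ, p.Prime ∧ (p : ℤ) ∣ f.eval (n : ℤ) ∧ p ≡ a [MOD m] ∧ ¬ (p : ℤ) ∣ f.eval 0

/-- `p 0, p 1, ...` is the sequence `GEM_1(f; a, m)`: `p n` is the smallest prime `q ≡ a` modulo `m`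
which divides `f(p 0 ⋯ p (n - 1))` and does not divide `f(0)`. -/
def IsGEM1 (f : ℤ[X]) (a m : ℕ) (p : ℕ → ℕ) : Prop :=
  ∀ n : ℕ, IsLeast {q : ℕ | q.Prime ∧ (q : ℤ) ∣ f.eval (∏ i ∈ Finset.range n, (p i : ℤ)) ∧
    q ≡ a [MOD m] ∧ ¬ (q : ℤ) ∣ f.eval 0} (p n)

/-- `g` is a Euclidean polynomial for the residue class `a` modulo `m`: only finitely many primes
which divide one of the values of `g` at the integers are not congruent to `1` or `a` modulo `m`. -/
def IsEuclidean (a m : ℕ) (g : ℤ[X]) : Prop :=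
  {p : ℕ | p.Prime ∧ (∃ n : ℤ, (p : ℤ) ∣ g.eval n) ∧ ¬ p ≡ 1 [MOD m] ∧ ¬ p ≡ a [MOD m]}.Finite

/-- the number of prime factors `≡ a` modulo `m` of the integer `N`, counted with multiplicity -/
def omega (a m : ℕ) (N : ℤ) : ℕ :=
  (N.natAbs.primeFactorsList.filter fun p => p % m = a % m).length

theorem omega_eq (N : ℤ) : omega 11 60 N = Pool.Agent.Work.MP_75c89d_q1.om
    Pool.Agent.Work.MP_75c89d_q1.A N.natAbs := by
  unfold omega Pool.Agent.Work.MP_75c89d_q1.om Pool.Agent.Work.MP_75c89d_q1.A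
  rw [List.countP_eq_length_filter]

/-- **Theorem.** Let `g ≠ 0` be a Euclidean polynomial for the residue class `11` modulo `60`. Then
`g` has no integral root, and the parity of the number of prime factors `≡ 11` modulo `60` of
`g(n)`, counted with multiplicity, is the same for all integers `n`. If it is odd then for every
`f ∈ GEM(11, 60)` divisible by `g` (in particular for `f = g`) a prime `q ≡ 11` modulo `60` divides
`f(0)`, and `q` does not occur in `GEM_1(f; 11, 60)`. -/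
theorem result (g : ℤ[X]) (hg : g ≠ 0) (hE : IsEuclidean 11 60 g) :
    (∀ n : ℤ, g.eval n ≠ 0) ∧
    (∀ n n' : ℤ, omega 11 60 (g.eval n) ≡ omega 11 60 (g.eval n') [MOD 2]) ∧
    ∀ n₀ : ℤ, Odd (omega 11 60 (g.eval n₀)) → ∀ f : ℤ[X], IsGEM 11 60 f → g ∣ f →
      ∃ q : ℕ, q.Prime ∧ q ≡ 11 [MOD 60] ∧ (q : ℤ) ∣ f.eval 0 ∧
        ∀ p : ℕ → ℕ, IsGEM1 f 11 60 p → ∀ n, p n ≠ q := by
  have key := Pool.Agent.Work.MP_75c89d_q1.general_case g hg hE
  have hne : ∀ n : ℤ, g.eval n ≠ 0 := fun n => (key n n).1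
  have hpar : ∀ n n' : ℤ, omega 11 60 (g.eval n) ≡ omega 11 60 (g.eval n') [MOD 2] := by
    intro n n'
    have h1 := (key n n').2.2
    rw [Int.natAbs_mul, Pool.Agent.Work.MP_75c89d_q1.om_mul _ (Int.natAbs_ne_zero.mpr (hne n))
      (Int.natAbs_ne_zero.mpr (hne n')), ← omega_eq, ← omega_eq, Nat.even_add] at h1
    unfold Nat.ModEq
    rcases Nat.even_or_odd (omega 11 60 (g.eval n)) with h2 | h2
    · rw [Nat.even_iff.mp h2, Nat.even_iff.mp (h1.mp h2)]
    · have h3 : Odd (omega 11 60 (g.eval n')) := by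
        rw [← Nat.not_even_iff_odd] at h2 ⊢
        exact fun h => h2 (h1.mpr h)
      rw [Nat.odd_iff.mp h2, Nat.odd_iff.mp h3]
  refine ⟨hne, hpar, ?_⟩
  intro n₀ hodd f _ hgf
  have h0 : omega 11 60 (g.eval 0) % 2 = 1 := by
    rw [← Nat.odd_iff.mp hodd]
    exact hpar 0 n₀
  have hpos : 0 < omega 11 60 (g.eval 0) := by omega
  unfold omega at hpos
  obtain ⟨q, hq⟩ := List.exists_mem_of_length_pos hpos
  rw [List.mem_filter] at hq
  have hqp : q.Prime := Nat.prime_of_mem_primeFactorsList hq.1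
  have hqd : (q : ℤ) ∣ g.eval 0 := Int.natCast_dvd.mpr (Nat.dvd_of_mem_primeFactorsList hq.1)
  have hqf : (q : ℤ) ∣ f.eval 0 := hqd.trans (eval_dvd hgf)
  refine ⟨q, hqp, by simpa [Nat.ModEq] using hq.2, hqf, ?_⟩
  intro p hp n hn
  have h1 := (hp n).1.2.2.2
  rw [hn] at h1
  exact h1 hqf

end Pool.Agent.Results.MP_75c89d_nt.EuclideanParity
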