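import Pool.Agent.Work.MP_75c89d_cub.All

/-!
# MP_75c89d_nt: generalised Euclid-Mullin sequences of the second kind, all primes

Q2 for `a = 1`, `m = 1, 2`, without any unproved hypothesis, for all `f ∈ GEM(1, m)` with a factor
`u X + w`, `gcd(u, w) = 1`, such that `w` is not a cube (and some cases where `w` is a cube).  This
settles the family `f = c (u X + v ^ 8) ^ k` whenever `v` is not a cube (`octic_case`).
-/

set_option autoImplicit false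

open Polynomial

namespace Pool.Agent.Results.MP_75c89d_nt.LinearFactor

/-- `f ∈ GEM(a, m)`: `f(1) ≠ 0`, and for every positive integer `n` which is coprime to `f(0)` and
congruent to some `a ^ k`, `k ≥ 1`, modulo `m`, the value `f(n)` is divisible by a prime `p ≡ a`
modulo `m` which does not divide `f(0)`. -/
def IsGEM (a m : ℕ) (f : ℤ[X]) : Prop :=
  f.eval 1 ≠ 0 ∧ ∀ n : ℕ, 0 < n → IsCoprime (n : ℤ) (f.eval 0) →
    (∃ k : ℕ, 0 < k ∧ n ≡ a ^ k [MOD m]) →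
    ∃ p : ℕ, p.Prime ∧ (p : ℤ) ∣ f.eval (n : ℤ) ∧ p ≡ a [MOD m] ∧ ¬ (p : ℤ) ∣ f.eval 0

/-- `p 0, p 1, ...` is the sequence `GEM_2(f; a, m)`: `p n` is the largest prime `q ≡ a` modulo `m`
which divides `f(p 0 ⋯ p (n - 1))` and does not divide `f(0)`. -/
def IsGEM2 (f : ℤ[X]) (a m : ℕ) (p : ℕ → ℕ) : Prop :=
  ∀ n : ℕ, IsGreatest {q : ℕ | q.Prime ∧ (q : ℤ) ∣ f.eval (∏ i ∈ Finset.range n, (p i : ℤ)) ∧
    q ≡ a [MOD m] ∧ ¬ (q : ℤ) ∣ f.eval 0} (p n)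

/-- **Theorem.** Let `m = 1` or `2`, and let `f ∈ GEM(1, m)` have a factor `u X + w` in `ℤ[X]` with
`gcd(u, w) = 1`.  Suppose that `w` is not the cube of an integer, or that `3 ∤ u` and `3` occurs in
`GEM_2(f; 1, m)`, or that `3 ∥ u` and `3` does not occur.  Then infinitely many primes `≡ 1` modulo
`m` do not occur in `GEM_2(f; 1, m)`. -/
theorem result (m : ℕ) (hm : m = 1 ∨ m = 2) (f : ℤ[X]) (_hf : IsGEM 1 m f) (u w : ℤ)
    (huw : IsCoprime u w) (hg : C u * X + C w ∣ f) (p : ℕ → ℕ) (hp : IsGEM2 f 1 m p)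
    (hw : (¬ ∃ v : ℤ, w = v ^ 3) ∨ (¬ (3 : ℤ) ∣ u ∧ ∃ i, p i = 3) ∨
      ((3 : ℤ) ∣ u ∧ ¬ (9 : ℤ) ∣ u ∧ ∀ i, p i ≠ 3)) :
    {q : ℕ | q.Prime ∧ q ≡ 1 [MOD m] ∧ ∀ n, p n ≠ q}.Infinite :=
  Pool.EMC.all_FIN m f u w p (by omega) (by omega) hg huw hp hw

/-- The case `f = c (u X + w) ^ k`. -/
theorem power_case (m : ℕ) (hm : m = 1 ∨ m = 2) (c u w : ℤ) (k : ℕ) (hk : 0 < k)
    (huw : IsCoprime u w) (hG : IsGEM 1 m (C c * (C u * X + C w) ^ k)) (p : ℕ → ℕ)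
    (hp : IsGEM2 (C c * (C u * X + C w) ^ k) 1 m p)
    (hw : (¬ ∃ v : ℤ, w = v ^ 3) ∨ ((3 : ℤ) ∣ u ∧ ¬ (9 : ℤ) ∣ u) ∨
      (¬ (3 : ℤ) ∣ u ∧ ∃ i, p i = 3)) :
    {q : ℕ | q.Prime ∧ q ≡ 1 [MOD m] ∧ ∀ n, p n ≠ q}.Infinite := by
  refine result m hm _ hG u w huw (Dvd.dvd.mul_left (dvd_pow_self _ hk.ne') _) p hp ?_
  rcases hw with h | h | h
  · exact Or.inl h
  · refine Or.inr (Or.inr ⟨h.1, h.2, fun i hi => ?_⟩)
    obtain ⟨⟨h1, h2, _, h4⟩, _⟩ := hp i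
    rw [hi] at h1 h2 h4
    simp only [eval_mul, eval_pow, eval_add, eval_C, eval_X, mul_zero, zero_add] at h2 h4
    have h3 : Prime (3 : ℤ) := Int.prime_three
    rcases h3.dvd_or_dvd h2 with h5 | h5
    · exact h4 (Dvd.dvd.mul_right h5 _)
    · have h6 := h3.dvd_of_dvd_pow h5
      have h7 : (3 : ℤ) ∣ w := by
        have := (dvd_add_right (Dvd.dvd.mul_right h.1 _)).1 h6
        exact_mod_cast this
      exact h3.not_isUnit (huw.isUnit_of_dvd' h.1 h7)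
  · exact Or.inr (Or.inl h)

/-- The family which is left open by the known results: `f = c (u X + v ^ 8) ^ k`; the theorem applies
whenever `v` is not a cube. -/
theorem octic_case (m : ℕ) (hm : m = 1 ∨ m = 2) (c u v : ℤ) (k : ℕ) (hk : 0 < k)
    (huv : IsCoprime u v) (hG : IsGEM 1 m (C c * (C u * X + C (v ^ 8)) ^ k)) (p : ℕ → ℕ)
    (hp : IsGEM2 (C c * (C u * X + C (v ^ 8)) ^ k) 1 m p) (hv : ¬ ∃ t : ℤ, v = t ^ 3) :
    {q : ℕ | q.Prime ∧ q ≡ 1 [MOD m] ∧ ∀ n, p n ≠ q}.Infinite := by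
  refine power_case m hm c u (v ^ 8) k hk huv.pow_right hG p hp (Or.inl ?_)
  rintro ⟨t, ht⟩
  have hv0 : v ≠ 0 := by
    rintro rfl
    exact hv ⟨0, by norm_num⟩
  -- `(v ^ 3) ^ 3 = v t ^ 3`, so `t ∣ v ^ 3`
  have h1 : (v ^ 3) ^ 3 = v * t ^ 3 := by
    rw [← ht]
    ring
  have h2 : t ^ 3 ∣ (v ^ 3) ^ 3 := ⟨v, by rw [h1]; ring⟩
  have h3 : t ∣ v ^ 3 := (Int.pow_dvd_pow_iff (by norm_num)).1 h2
  obtain ⟨s, hs⟩ := h3
  have ht0 : t ≠ 0 := by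
    rintro rfl
    rw [zero_pow (by norm_num)] at ht
    exact hv0 (pow_eq_zero_iff (by norm_num) |>.1 ht)
  refine hv ⟨s, ?_⟩
  rw [hs, mul_pow] at h1
  have h4 : t ^ 3 ≠ 0 := pow_ne_zero _ ht0
  have h5 : t ^ 3 * (s ^ 3 - v) = 0 := by linear_combination h1
  rcases mul_eq_zero.1 h5 with h6 | h6
  · exact absurd h6 h4
  · linear_combination -h6

end Pool.Agent.Results.MP_75c89d_nt.LinearFactor
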