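import Pool.Agent.Work.GEM.ALL

/-!
# MP_75c89d_nt: generalised Euclid-Mullin sequences of the second kind, residue class 1

Q2 for `a = 1`, all `m ≥ 3`, without any unproved hypothesis, for all `f ∈ GEM(1, m)` which have a
factor `g`, irreducible over `ℚ`, such that `ℚ[X]/(g)` contains a primitive `m`-th root of unity
(with a side condition on `g`, which is true for `g = Φ_m(c X)`: `cyclotomic_case`).
-/

set_option autoImplicit false

open Polynomial

namespace Pool.Agent.Results.MP_75c89d_nt.SecondKind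

/-- `f ∈ GEM(a, m)`: `f(1) ≠ 0`, and for every positive integer `n` which is coprime to `f(0)` and
congruent to some `a ^ k`, `k ≥ 1`, modulo `m`, the value `f(n)` is divisible by a prime `p ≡ a`
modulo `m` which does not divide `f(0)`. -/
def IsGEM (a m : ℕ) (f : ℤ[X]) : Prop :=
  f.eval 1 ≠ 0 ∧ ∀ n : ℕ, 0 < n → IsCoprime (n : ℤ) (f.eval 0) →
    (∃ k : ℕ, 0 < k ∧ n ≡ a ^ k [MOD m]) →
    ∃ p : ℕ, p.Prime ∧ (p : ℤ) ∣ f.eval (n : ℤ) ∧ p ≡ a [MOD m] ∧ ¬ (p : ℤ) ∣ f.eval 0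

/-- `p 0, p 1, ...` is the sequence `GEM_2(f; a, m)`: `p n` is the largest prime `q ≡ a` modulo `m`
which divides `f(p 0 ⋯ p (n - 1))` and does not divide `f(0)`. -/
def IsGEM2 (f : ℤ[X]) (a m : ℕ) (p : ℕ → ℕ) : Prop :=
  ∀ n : ℕ, IsGreatest {q : ℕ | q.Prime ∧ (q : ℤ) ∣ f.eval (∏ i ∈ Finset.range n, (p i : ℤ)) ∧
    q ≡ a [MOD m] ∧ ¬ (q : ℤ) ∣ f.eval 0} (p n)

/-- `Φ_m(c X)` is irreducible over `ℚ` -/
private theorem irr_aux (m : ℕ) (hm : 0 < m) (c : ℤ) (hc : c ≠ 0) :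
    Irreducible (((cyclotomic m ℤ).comp (C c * X)).map (Int.castRingHom ℚ)) := by
  have hc' : (c : ℚ) ≠ 0 := by exact_mod_cast hc
  have h1 : ((cyclotomic m ℤ).comp (C c * X)).map (Int.castRingHom ℚ)
      = (cyclotomic m ℚ).comp (C (c : ℚ) * X) := by
    rw [Polynomial.map_comp, map_cyclotomic]
    simp
  rw [h1]
  have h2 : Irreducible (cyclotomic m ℚ) := cyclotomic.irreducible_rat hm
  let e : ℚ[X] ≃ₐ[ℚ] ℚ[X] :=
    AlgEquiv.ofAlgHom (aeval (C (c : ℚ) * X)) (aeval (C ((c : ℚ)⁻¹) * X))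
      (by
        refine Polynomial.algHom_ext ?_
        simp only [AlgHom.comp_apply, aeval_X, map_mul, aeval_C, AlgHom.id_apply]
        rw [← mul_assoc, algebraMap_eq, ← C_mul, inv_mul_cancel₀ hc', C_1, one_mul])
      (by
        refine Polynomial.algHom_ext ?_
        simp only [AlgHom.comp_apply, aeval_X, map_mul, aeval_C, AlgHom.id_apply]
        rw [← mul_assoc, algebraMap_eq, ← C_mul, mul_inv_cancel₀ hc', C_1, one_mul])
  have h3 : (cyclotomic m ℚ).comp (C (c : ℚ) * X) = e (cyclotomic m ℚ) := rfl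
  rw [h3]
  exact (MulEquiv.irreducible_iff (e : ℚ[X] ≃* ℚ[X])).2 h2

/-- **Theorem.** Let `m ≥ 3`, let `f ∈ GEM(1, m)` have a factor `g` in `ℤ[X]`, irreducible over
`ℚ`, such that `ℚ[X]/(g)` contains a primitive `m`-th root of unity, and suppose that the product of
the leading coefficient of `g` and `g(0)` is a square, or that `g(n) g(0)` is a square for only
finitely many `n ≡ 1` modulo `m` coprime to `f(0)`. Then infinitely many primes `≡ 1` modulo `m` do
not occur in `GEM_2(f; 1, m)`. -/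
theorem result (m : ℕ) (hm : 3 ≤ m) (f g : ℤ[X]) (_hf : IsGEM 1 m f) (hgf : g ∣ f)
    (hg : Irreducible (g.map (Int.castRingHom ℚ)))
    (hζ : ∃ h : ℚ[X], g.map (Int.castRingHom ℚ) ∣ (cyclotomic m ℚ).comp h)
    (hs : IsSquare (g.leadingCoeff * g.coeff 0) ∨
      {n : ℕ | n ≡ 1 [MOD m] ∧ IsCoprime (n : ℤ) (f.eval 0) ∧
        IsSquare (g.eval (n : ℤ) * g.coeff 0)}.Finite)
    (p : ℕ → ℕ) (hp : IsGEM2 f 1 m p) :
    {q : ℕ | q.Prime ∧ q ≡ 1 [MOD m] ∧ ∀ n, p n ≠ q}.Infinite :=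
  Pool.Agent.Work.GEM.all_FIN m f g hm hgf hg hζ hs p hp

/-- The case `f = g = Φ_m(c X)`. -/
theorem cyclotomic_case (m : ℕ) (hm : 3 ≤ m) (c : ℤ)
    (hG : IsGEM 1 m ((cyclotomic m ℤ).comp (C c * X))) (p : ℕ → ℕ)
    (hp : IsGEM2 ((cyclotomic m ℤ).comp (C c * X)) 1 m p) :
    {q : ℕ | q.Prime ∧ q ≡ 1 [MOD m] ∧ ∀ n, p n ≠ q}.Infinite := by
  have hm0 : 0 < m := by omega
  -- `c ≠ 0`
  have hc : c ≠ 0 := by
    rintro rfl
    obtain ⟨_, h2⟩ := hG
    have h0 : ∀ t : ℤ, ((cyclotomic m ℤ).comp (C 0 * X)).eval t = 1 := by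
      intro t
      rw [eval_comp]
      simp only [map_zero, zero_mul, eval_zero]
      rw [← coeff_zero_eq_eval_zero, cyclotomic_coeff_zero ℤ (by omega)]
    obtain ⟨q, hq, hq1, _, _⟩ := h2 1 one_pos (by simpa using isCoprime_one_left)
      ⟨1, one_pos, by simp [Nat.ModEq]⟩
    rw [h0] at hq1
    exact hq.one_lt.ne' (by exact_mod_cast Int.eq_one_of_dvd_one (by positivity) hq1)
  refine result m hm _ _ hG (dvd_refl _) (irr_aux m hm0 c hc) ?_ (Or.inl ?_) p hp
  · refine ⟨C (c : ℚ) * X, ?_⟩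
    rw [Polynomial.map_comp, map_cyclotomic]
    simp
  · -- the leading coefficient is `c ^ φ(m)` and the constant coefficient is `1`
    have hdeg : (C c * X : ℤ[X]).natDegree = 1 := natDegree_C_mul_X c hc
    have h1 : ((cyclotomic m ℤ).comp (C c * X)).leadingCoeff = c ^ m.totient := by
      rw [leadingCoeff_comp (by rw [hdeg]; exact one_ne_zero), (cyclotomic.monic m ℤ).leadingCoeff,
        one_mul, natDegree_cyclotomic, leadingCoeff_mul, leadingCoeff_C, leadingCoeff_X, mul_one]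
    have h2 : ((cyclotomic m ℤ).comp (C c * X)).coeff 0 = 1 := by
      rw [coeff_zero_eq_eval_zero, eval_comp]
      simp only [eval_mul, eval_C, eval_X, mul_zero]
      rw [← coeff_zero_eq_eval_zero, cyclotomic_coeff_zero ℤ (by omega)]
    rw [h1, h2, mul_one]
    have h3 : Even m.totient := Nat.totient_even (by omega)
    exact h3.isSquare_pow c

end Pool.Agent.Results.MP_75c89d_nt.SecondKind
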